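import Pool.Agent.R564.HL.Below

set_option autoImplicit false

/-!
# Faulty search on the half-line: a trajectory with competitive ratio below `4 - p`

For the detection probability `p = 1/3` there is a trajectory with competitive ratio at most
`3.651 < 11/3 = 4 - p`.

The trajectory runs in rounds; round number `i` reaches `x_i = (3/2)^i` and returns to the origin.
On the way out it covers the segment from `x_{i-1}` to `8/7 x_{i-1}` three times (it turns at
`8/7 x_{i-1}`, goes back to `x_{i-1}` and on to `x_i`), and on the way back it covers the segment
from `8/7 x_{i-2}` to `4/3 x_{i-2}` three times. So every part of the new territory of a round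
gets one additional pair of passes, at a time that depends on the part, or none at all.
-/

namespace Pool.Agent.Results.MP_1aa7fe_lc.BelowFourMinusP

open Pool.Agent.R564.HL

/-- For `p = 1/3` there is a trajectory `T` with competitive ratio at most `3.651`, which is
smaller than `4 - p`. -/
theorem result : ∃ T : Trajectory,
    T.ratio (1 / 3) ≤ ENNReal.ofReal (3651 / 1000) ∧
    T.ratio (1 / 3) < ENNReal.ofReal (4 - 1 / 3) := by
  refine ⟨zig, zig_ratio, lt_of_le_of_lt zig_ratio ?_⟩
  rw [ENNReal.ofReal_lt_ofReal_iff (by norm_num)]
  norm_num

end Pool.Agent.Results.MP_1aa7fe_lc.BelowFourMinusP
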